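import Pool.Agent.Q56.ZO.Defs

/-!
# Natural maps between theories on which algebraic correspondences act: definitions
-/

set_option autoImplicit false

open CategoryTheory AlgebraicGeometry

universe u v w

namespace Pool.Agent.Q56.ZO

open Pool.Agent.H914 Pool.Agent.H914.VarClass Pool.Agent.H914.VarClass.Obj
  Pool.Agent.H914.WeilCohomology Pool.Agent.Y133.Half

variable {k : Type u} [Field k] {𝒱 : VarClass k} {ops : CycleOps 𝒱}
  {W : WeilCohomology.{u, v} ops}

/-- The direct sum of two theories. -/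
def CycTheory.sum (A B : CycTheory.{u, v, w} W) : CycTheory.{u, v, w} W where
  M X := A.M X × B.M X
  act Γ m := (A.act Γ m.1, B.act Γ m.2)
  act_add Γ m n := Prod.ext (A.act_add Γ m.1 n.1) (B.act_add Γ m.2 n.2)
  act_smul Γ c m := Prod.ext (A.act_smul Γ c m.1) (B.act_smul Γ c m.2)
  add_act Γ Δ m := Prod.ext (A.add_act Γ Δ m.1) (B.add_act Γ Δ m.2)
  act_comp {X Y Z p q Γ Δ} hΓ hΔ m := by
    have h1 := A.act_comp hΓ hΔ m.1
    have h2 := B.act_comp hΓ hΔ m.2
    split_ifs at h1 h2 ⊢ with h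
    · exact Prod.ext h1 h2
    · exact Prod.ext h1 h2
  act_diag m := Prod.ext (A.act_diag m.1) (B.act_diag m.2)

end Pool.Agent.Q56.ZO
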