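import Pool.Agent.Q56.ZO.Main
import Pool.Agent.Q56.ZO.DefsR

/-!
# The zero-one law for natural maps between theories
-/

set_option autoImplicit false

open CategoryTheory AlgebraicGeometry

universe u v w

namespace Pool.Agent.Q56.ZO

open Module
open Pool.Agent.H914 Pool.Agent.H914.VarClass Pool.Agent.H914.VarClass.Obj
  Pool.Agent.H914.WeilCohomology Pool.Agent.Y133.Half Pool.Agent.Q55.Rate
  Pool.Agent.H281R3.HT

variable {k : Type u} [Field k] {𝒱 : VarClass k} {ops : CycleOps 𝒱}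
  {W : WeilCohomology.{u, v} ops} {X Y Z P Q : 𝒱.Obj} {A B : CycTheory.{u, v, w} W}

lemma NatMap.lin_nat (φ : NatMap A B) (Γ : (X.prod Y).Cycles) (m : A.M X) :
    φ.lin Y (A.act Γ m) = B.act Γ (φ.lin X m) := φ.nat Γ m

/-- The natural map `φ : A → B` is bijective on all direct factors of rank less than `d` of the
powers of `X`. -/
def BijBelow (φ : NatMap A B) (X : 𝒱.Obj) (d : ℕ) : Prop :=
  ∀ (m : ℕ) (x : Module.End W.K (W.H (pw X m)) ×
      Module.End W.K (A.M (pw X m) × B.M (pw X m))),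
    x ∈ corrPairs (A.sum B) (pw X m) (pw X m) → x * x = x →
      Module.finrank W.K (LinearMap.range x.1) < d →
        (∀ a, φ.lin _ (x.2 (a, 0)).1 = 0 → (x.2 (a, 0)).1 = 0) ∧
          ∀ b, ∃ a, φ.lin _ a = (x.2 (0, b)).2

lemma ker_act (φ : NatMap A B) (Γ : (X.prod Y).Cycles) {m : A.M X}
    (hm : m ∈ LinearMap.ker (φ.lin X)) : A.act Γ m ∈ LinearMap.ker (φ.lin Y) := by
  rw [LinearMap.mem_ker] at hm ⊢
  rw [φ.lin_nat, hm]
  exact (B.actL Γ).map_zero

lemma range_act (φ : NatMap A B) (Γ : (X.prod Y).Cycles) :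
    LinearMap.range (φ.lin X) ≤ (LinearMap.range (φ.lin Y)).comap (B.actL Γ) := by
  rintro _ ⟨m, rfl⟩
  exact ⟨A.act Γ m, φ.nat Γ m⟩

/-- The kernel and the cokernel of a natural map. -/
def kerCok (φ : NatMap A B) : CycTheory.{u, v, w} W where
  M X := LinearMap.ker (φ.lin X) × (B.M X ⧸ LinearMap.range (φ.lin X))
  act {X Y} Γ m := (⟨A.act Γ m.1, ker_act φ Γ m.1.2⟩,
    Submodule.mapQ _ _ (B.actL Γ) (range_act φ Γ) m.2)
  act_add Γ m n := Prod.ext (Subtype.ext (A.act_add Γ _ _)) (map_add _ _ _)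
  act_smul Γ c m := Prod.ext (Subtype.ext (A.act_smul Γ c _)) (map_smul _ _ _)
  add_act Γ Δ m := Prod.ext (Subtype.ext (A.add_act Γ Δ _)) (by
    obtain ⟨b, hb⟩ := Submodule.mkQ_surjective _ m.2
    rw [← hb]
    exact congrArg (Submodule.mkQ _) (B.add_act Γ Δ b))
  act_comp {X Y Z p q Γ Δ} hΓ hΔ m := by
    have h1 := A.act_comp hΓ hΔ (m.1 : A.M X)
    obtain ⟨b, hb⟩ := Submodule.mkQ_surjective _ m.2
    have h2 := B.act_comp hΓ hΔ b
    have h3 := congrArg (LinearMap.range (φ.lin Z)).mkQ h2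
    split_ifs at h1 h3 ⊢ with h
    · refine Prod.ext (Subtype.ext h1) ?_
      rw [← hb]
      exact h3
    · refine Prod.ext (Subtype.ext h1) ?_
      rw [← hb]
      exact h3.trans (map_zero _)
  act_diag m := Prod.ext (Subtype.ext (A.act_diag _)) (by
    obtain ⟨b, hb⟩ := Submodule.mkQ_surjective _ m.2
    rw [← hb]
    exact congrArg (Submodule.mkQ _) (B.act_diag b))

/-- The operator `f` on the kernel and the cokernel is induced by the operator `g` on the sum. -/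
def Induced (φ : NatMap A B) (f : (kerCok φ).M X →ₗ[W.K] (kerCok φ).M Y)
    (g : (A.sum B).M X →ₗ[W.K] (A.sum B).M Y) : Prop :=
  ∀ (a : LinearMap.ker (φ.lin X)) (b : B.M X),
    (((f (a, (LinearMap.range (φ.lin X)).mkQ b)).1 : LinearMap.ker (φ.lin Y)) : A.M Y) =
      (g ((a : A.M X), b)).1 ∧
    (f (a, (LinearMap.range (φ.lin X)).mkQ b)).2 =
      (LinearMap.range (φ.lin Y)).mkQ (g ((a : A.M X), b)).2

lemma exists_induced (φ : NatMap A B) {x : (W.H X →ₗ[W.K] W.H Y) ×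
      ((kerCok φ).M X →ₗ[W.K] (kerCok φ).M Y)} (hx : x ∈ corrPairs (kerCok φ) X Y) :
    ∃ g : (A.sum B).M X →ₗ[W.K] (A.sum B).M Y, (x.1, g) ∈ corrPairs (A.sum B) X Y ∧
      Induced φ x.2 g := by
  refine corrPairs.ind (q := fun x => ∃ g : (A.sum B).M X →ₗ[W.K] (A.sum B).M Y,
    (x.1, g) ∈ corrPairs (A.sum B) X Y ∧ Induced φ x.2 g) ?_ ?_ ?_ ?_ hx
  · intro p Γ hΓ
    exact ⟨_, corrPairs.of hΓ, fun a b => ⟨rfl, rfl⟩⟩
  · exact ⟨0, Submodule.zero_mem _, fun a b => ⟨rfl, (map_zero _).symm⟩⟩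
  · rintro x y ⟨g, hg, h⟩ ⟨g', hg', h'⟩
    refine ⟨g + g', Submodule.add_mem _ hg hg', fun a b => ⟨?_, ?_⟩⟩
    · have e1 := (h a b).1
      have e2 := (h' a b).1
      exact congrArg₂ (· + ·) e1 e2
    · have e1 := (h a b).2
      have e2 := (h' a b).2
      exact (congrArg₂ (· + ·) e1 e2).trans (map_add _ _ _).symm
  · rintro c x ⟨g, hg, h⟩
    refine ⟨c • g, Submodule.smul_mem _ c hg, fun a b => ⟨?_, ?_⟩⟩
    · exact congrArg (c • ·) (h a b).1
    · exact (congrArg (c • ·) (h a b).2).trans (map_smul _ _ _).symm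

lemma Induced.comp {φ : NatMap A B} {f : (kerCok φ).M X →ₗ[W.K] (kerCok φ).M Y}
    {g : (A.sum B).M X →ₗ[W.K] (A.sum B).M Y} {f' : (kerCok φ).M Y →ₗ[W.K] (kerCok φ).M Z}
    {g' : (A.sum B).M Y →ₗ[W.K] (A.sum B).M Z} (h' : Induced φ f' g') (h : Induced φ f g) :
    Induced φ (f' ∘ₗ f) (g' ∘ₗ g) := by
  intro a b
  have h1 := h a b
  set c := f (a, (LinearMap.range (φ.lin X)).mkQ b) with hc
  have h2 : c = (c.1, (LinearMap.range (φ.lin Y)).mkQ (g ((a : A.M X), b)).2) :=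
    Prod.ext rfl h1.2
  have h3 := h' c.1 (g ((a : A.M X), b)).2
  rw [← h2] at h3
  have h4 : (((c.1 : LinearMap.ker (φ.lin Y)) : A.M Y), (g ((a : A.M X), b)).2) =
      g ((a : A.M X), b) := Prod.ext h1.1 rfl
  rw [h4] at h3
  exact h3

lemma Induced.id (φ : NatMap A B) (X : 𝒱.Obj) :
    Induced φ (LinearMap.id : (kerCok φ).M X →ₗ[W.K] (kerCok φ).M X) LinearMap.id :=
  fun _ _ => ⟨rfl, rfl⟩

lemma Induced.sub {φ : NatMap A B} {f f' : (kerCok φ).M X →ₗ[W.K] (kerCok φ).M Y}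
    {g g' : (A.sum B).M X →ₗ[W.K] (A.sum B).M Y} (h : Induced φ f g) (h' : Induced φ f' g') :
    Induced φ (f - f') (g - g') := by
  intro a b
  refine ⟨?_, ?_⟩
  · exact congrArg₂ (· - ·) (h a b).1 (h' a b).1
  · exact (congrArg₂ (· - ·) (h a b).2 (h' a b).2).trans (map_sub _ _ _).symm

lemma Induced.pow {φ : NatMap A B} {f : Module.End W.K ((kerCok φ).M X)}
    {g : Module.End W.K ((A.sum B).M X)} (h : Induced φ f g) (n : ℕ) :
    Induced φ (f ^ n) (g ^ n) := by
  induction n with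
  | zero => exact Induced.id φ X
  | succ n ih =>
    rw [pow_succ, pow_succ]
    exact ih.comp h

lemma Induced.eq_zero {φ : NatMap A B} {f : (kerCok φ).M X →ₗ[W.K] (kerCok φ).M Y}
    {g : (A.sum B).M X →ₗ[W.K] (A.sum B).M Y} (h : Induced φ f g)
    (h0 : ∀ (a : LinearMap.ker (φ.lin X)) (b : B.M X), (g ((a : A.M X), b)).1 = 0 ∧
      (g ((a : A.M X), b)).2 ∈ LinearMap.range (φ.lin Y)) : f = 0 := by
  apply LinearMap.ext
  rintro ⟨a, b'⟩
  obtain ⟨b, rfl⟩ := Submodule.mkQ_surjective _ b'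
  have h1 := h a b
  refine Prod.ext (Subtype.ext ?_) ?_
  · rw [h1.1, (h0 a b).1]; rfl
  · rw [h1.2, Submodule.mkQ_apply, (Submodule.Quotient.mk_eq_zero _).2 (h0 a b).2]; rfl

/-- Operators on the sum are diagonal and compatible with the natural map. -/
lemma sum_diag (φ : NatMap A B) {y : (W.H X →ₗ[W.K] W.H Y) ×
      ((A.sum B).M X →ₗ[W.K] (A.sum B).M Y)} (hy : y ∈ corrPairs (A.sum B) X Y) :
    ∃ (f : A.M X →ₗ[W.K] A.M Y) (g : B.M X →ₗ[W.K] B.M Y), (y.1, f) ∈ corrPairs A X Y ∧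
      (y.1, g) ∈ corrPairs B X Y ∧ (∀ (a : A.M X) (b : B.M X), y.2 (a, b) = (f a, g b)) ∧
      ∀ a, φ.lin Y (f a) = g (φ.lin X a) := by
  refine corrPairs.ind (q := fun y => ∃ (f : A.M X →ₗ[W.K] A.M Y) (g : B.M X →ₗ[W.K] B.M Y),
    (y.1, f) ∈ corrPairs A X Y ∧ (y.1, g) ∈ corrPairs B X Y ∧
      (∀ (a : A.M X) (b : B.M X), y.2 (a, b) = (f a, g b)) ∧
      ∀ a, φ.lin Y (f a) = g (φ.lin X a)) ?_ ?_ ?_ ?_ hy
  · intro p Γ hΓ
    exact ⟨A.actL Γ, B.actL Γ, corrPairs.of hΓ, corrPairs.of hΓ, fun a b => rfl,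
      fun a => φ.nat Γ a⟩
  · exact ⟨0, 0, Submodule.zero_mem _, Submodule.zero_mem _, fun a b => rfl,
      fun a => map_zero _⟩
  · rintro x y ⟨f, g, hf, hg, h1, h2⟩ ⟨f', g', hf', hg', h1', h2'⟩
    refine ⟨f + f', g + g', Submodule.add_mem _ hf hf', Submodule.add_mem _ hg hg',
      fun a b => congrArg₂ (· + ·) (h1 a b) (h1' a b), fun a => ?_⟩
    rw [LinearMap.add_apply, map_add, h2, h2', LinearMap.add_apply]
  · rintro c x ⟨f, g, hf, hg, h1, h2⟩
    refine ⟨c • f, c • g, Submodule.smul_mem _ c hf, Submodule.smul_mem _ c hg,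
      fun a b => congrArg (c • ·) (h1 a b), fun a => ?_⟩
    rw [LinearMap.smul_apply, map_smul, h2, LinearMap.smul_apply]

/-- Nilpotence for the sum. -/
lemma sum_nilpotent (hA : PairNilpotent A X) (hB : PairNilpotent B X)
    (φ : NatMap A B) : PairNilpotent (A.sum B) X := by
  intro m y hy h0
  obtain ⟨f, g, hf, hg, h1, -⟩ := sum_diag φ hy
  obtain ⟨N, hN⟩ := hA m _ hf h0
  obtain ⟨N', hN'⟩ := hB m _ hg h0
  have hN1 : (f : Module.End W.K (A.M (pw X m))) ^ N = 0 := hN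
  have hN2 : (g : Module.End W.K (B.M (pw X m))) ^ N' = 0 := hN'
  refine ⟨N + N', ?_⟩
  have h3 : ∀ (n : ℕ) (a : A.M (pw X m)) (b : B.M (pw X m)),
      (y.2 ^ n : Module.End W.K ((A.sum B).M (pw X m))) (a, b) =
        (((f : Module.End W.K (A.M (pw X m))) ^ n) a,
          ((g : Module.End W.K (B.M (pw X m))) ^ n) b) := by
    intro n
    induction n with
    | zero => intro a b; rfl
    | succ n ih =>
      intro a b
      have h4 : y.2 (a, b) = (f a, g b) := h1 a b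
      have h5 : (y.2 ^ (n + 1) : Module.End W.K ((A.sum B).M (pw X m))) (a, b) =
          (y.2 ^ n : Module.End W.K ((A.sum B).M (pw X m))) (y.2 (a, b)) := by
        rw [pow_succ]; rfl
      rw [h5, h4, ih, pow_succ, pow_succ]
      rfl
  apply LinearMap.ext
  rintro ⟨a, b⟩
  rw [h3, pow_add, hN1, zero_mul, pow_add, hN2, mul_zero]
  rfl

/-- Nilpotence for the kernel and the cokernel. -/
lemma kerCok_nilpotent {φ : NatMap A B} (h : PairNilpotent (A.sum B) X) :
    PairNilpotent (kerCok φ) X := by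
  intro m x hx h0
  obtain ⟨g, hg, hxg⟩ := exists_induced φ hx
  obtain ⟨N, hN⟩ := h m _ hg h0
  have hN' : (g : Module.End W.K ((A.sum B).M (pw X m))) ^ N = 0 := hN
  refine ⟨N, ?_⟩
  have h1 := Induced.pow (f := x.2) (g := g) hxg N
  rw [hN'] at h1
  exact h1.eq_zero fun a b => ⟨rfl, Submodule.zero_mem _⟩

lemma idem_pow {R : Type*} [Ring R] {p : R} (h : p * p = p) (n : ℕ) : p ^ (n + 1) = p := by
  induction n with
  | zero => rw [zero_add, pow_one]
  | succ n ih => rw [pow_succ, ih, h]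

lemma idem_lift {R : Type*} [Ring R] {p : R} (h : p * p = p) (n : ℕ) :
    1 - (1 - p ^ (n + 1)) ^ (n + 1) = p := by
  have h1 : (1 - p) * (1 - p) = 1 - p := by
    rw [mul_sub, mul_one, sub_mul, one_mul, h, sub_self, sub_zero]
  rw [idem_pow h, idem_pow h1, sub_sub_cancel]

/-- Vanishing on the direct factors of small rank. -/
lemma kerCok_vanishes {φ : NatMap A B} (hn : PairNilpotent (A.sum B) X) {d : ℕ}
    (hd : BijBelow φ X d) : VanishesBelow (kerCok φ) X d := by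
  intro m x hx hxx hr
  obtain ⟨g, hg, hxg⟩ := exists_induced φ hx
  have hx1 : x.1 * x.1 = x.1 := congrArg Prod.fst hxx
  have hx2 : x.2 * x.2 = x.2 := congrArg Prod.snd hxx
  obtain ⟨y, hy1, hy2, hy⟩ : ∃ y : Module.End W.K (W.H (pw X m)) ×
      Module.End W.K ((A.sum B).M (pw X m)), y.1 = x.1 ∧ y.2 = g ∧
        y ∈ pairAlg (A.sum B) (pw X m) := ⟨(x.1, g), rfl, rfl, hg⟩
  have h1 : y - y ^ 2 ∈ pairAlg (A.sum B) (pw X m) :=
    Subalgebra.sub_mem _ hy (Subalgebra.pow_mem _ hy 2)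
  have h2 : (y - y ^ 2).1 = 0 := by
    rw [Prod.fst_sub, Prod.pow_fst, hy1, pow_two, hx1, sub_self]
  obtain ⟨N, hN⟩ := hn m _ h1 h2
  have h3 : (y - y ^ 2) ^ (N + 1) = 0 := by
    refine Prod.ext ?_ ?_
    · rw [Prod.pow_fst, h2, zero_pow (Nat.succ_ne_zero N)]; rfl
    · rw [Prod.pow_snd, pow_succ, hN, zero_mul]; rfl
  have h4 := isIdempotentElem_one_sub_one_sub_pow_pow y (N + 1) h3
  set e := 1 - (1 - y ^ (N + 1)) ^ (N + 1) with he
  have h5 : e ∈ pairAlg (A.sum B) (pw X m) :=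
    Subalgebra.sub_mem _ (Subalgebra.one_mem _) (Subalgebra.pow_mem _
      (Subalgebra.sub_mem _ (Subalgebra.one_mem _) (Subalgebra.pow_mem _ hy _)) _)
  have h6 : e.1 = x.1 := by
    rw [he, Prod.fst_sub, Prod.pow_fst, Prod.fst_sub, Prod.pow_fst, Prod.fst_one, hy1]
    exact idem_lift hx1 N
  obtain ⟨hinj, hsurj⟩ := hd m e h5 h4 (by rw [h6]; exact hr)
  have h7 : Induced φ x.2 e.2 := by
    have e1 : x.2 = 1 - (1 - x.2 ^ (N + 1)) ^ (N + 1) := (idem_lift hx2 N).symm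
    have e2 : e.2 = 1 - (1 - g ^ (N + 1)) ^ (N + 1) := by
      rw [he, Prod.snd_sub, Prod.pow_snd, Prod.snd_sub, Prod.pow_snd, Prod.snd_one, hy2]
    rw [e1, e2]
    exact (Induced.id φ _).sub (((Induced.id φ _).sub
      (Induced.pow (f := x.2) (g := g) hxg (N + 1))).pow (N + 1))
  obtain ⟨f', g', -, -, hd1, hd2⟩ := sum_diag φ (y := e) h5
  refine h7.eq_zero fun a b => ⟨?_, ?_⟩
  · have e3 := hinj (a : A.M (pw X m))
    have e4 : e.2 ((a : A.M (pw X m)), (0 : B.M (pw X m))) = (f' a, g' 0) := hd1 _ _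
    have e5 : e.2 ((a : A.M (pw X m)), b) = (f' a, g' b) := hd1 _ _
    have e6 : φ.lin _ (f' a) = 0 := by rw [hd2, LinearMap.mem_ker.1 a.2, map_zero]
    have e7 := e3 ((congrArg (fun z : A.M (pw X m) × B.M (pw X m) => φ.lin _ z.1) e4).trans e6)
    exact (congrArg Prod.fst e5).trans ((congrArg Prod.fst e4).symm.trans e7)
  · obtain ⟨a', ha'⟩ := hsurj b
    have e4 : e.2 ((0 : A.M (pw X m)), b) = (f' 0, g' b) := hd1 _ _
    have e5 : e.2 ((a : A.M (pw X m)), b) = (f' a, g' b) := hd1 _ _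
    exact ⟨a', ha'.trans ((congrArg Prod.snd e4).trans (congrArg Prod.snd e5).symm)⟩

/-- Nothing is required for `d = 1`. -/
lemma bijBelow_one {φ : NatMap A B} (hn : PairNilpotent (A.sum B) X) :
    BijBelow φ X 1 := by
  intro m x hx hxx hr
  have h1 : LinearMap.range x.1 = ⊥ := Submodule.finrank_eq_zero.1 (by omega)
  have h2 : x.1 = 0 := LinearMap.range_eq_bot.1 h1
  have h3 : x.2 = 0 := idem_nil (congrArg Prod.snd hxx) (hn m x hx h2)
  rw [h3]
  exact ⟨fun a _ => rfl, fun b => ⟨0, map_zero _⟩⟩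

lemma subsingleton_iff (φ : NatMap A B) (P : 𝒱.Obj) :
    Subsingleton ((kerCok φ).M P) ↔ Function.Bijective (φ.lin P) := by
  constructor
  · intro h
    refine ⟨?_, ?_⟩
    · rw [← LinearMap.ker_eq_bot, LinearMap.ker_eq_bot']
      intro a ha
      have h1 : ((⟨a, ha⟩ : LinearMap.ker (φ.lin P)), (0 : B.M P ⧸ LinearMap.range (φ.lin P))) =
        (0, 0) := h.elim _ _
      exact congrArg (fun x : LinearMap.ker (φ.lin P) × (B.M P ⧸ LinearMap.range (φ.lin P)) =>
        (x.1 : A.M P)) h1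
    · rw [← LinearMap.range_eq_top]
      rw [eq_top_iff]
      intro b _
      have h1 : ((0 : LinearMap.ker (φ.lin P)), (LinearMap.range (φ.lin P)).mkQ b) =
        (0, 0) := h.elim _ _
      exact (Submodule.Quotient.mk_eq_zero _).1 (congrArg Prod.snd h1)
  · rintro ⟨hi, hs⟩
    refine ⟨fun x y => ?_⟩
    have h1 : ∀ x : LinearMap.ker (φ.lin P) × (B.M P ⧸ LinearMap.range (φ.lin P)), x = 0 := by
      rintro ⟨a, b⟩
      refine Prod.ext (Subtype.ext ?_) ?_
      · exact hi (by rw [LinearMap.mem_ker.1 a.2]; exact (map_zero _).symm)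
      · obtain ⟨b, rfl⟩ := Submodule.mkQ_surjective _ b
        exact (Submodule.Quotient.mk_eq_zero _).2 (hs b)
    exact (h1 x).trans (h1 y).symm

section List

variable {T : CycTheory.{u, v, w} W}

lemma actH_nil (a : W.H X) : actH W ([] : List (W.K × (X.prod Y).Cycles)) a = 0 := rfl

lemma actH_append (l l' : List (W.K × (X.prod Y).Cycles)) (a : W.H X) :
    actH W (l ++ l') a = actH W l a + actH W l' a := by
  rw [actH, List.map_append, List.sum_append]
  rfl

lemma actT_append (l l' : List (W.K × (X.prod Y).Cycles)) (a : T.M X) :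
    actT T (l ++ l') a = actT T l a + actT T l' a := by
  rw [actT, List.map_append, List.sum_append]
  rfl

lemma actH_scale (c : W.K) (l : List (W.K × (X.prod Y).Cycles)) (a : W.H X) :
    actH W (l.map fun x => (c * x.1, x.2)) a = c • actH W l a := by
  rw [actH, actH, List.smul_sum, List.map_map, List.map_map]
  congr 1
  apply List.map_congr_left
  intro x _
  exact mul_smul _ _ _

lemma actT_scale (c : W.K) (l : List (W.K × (X.prod Y).Cycles)) (a : T.M X) :
    actT T (l.map fun x => (c * x.1, x.2)) a = c • actT T l a := by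
  rw [actT, actT, List.smul_sum, List.map_map, List.map_map]
  congr 1
  apply List.map_congr_left
  intro x _
  exact mul_smul _ _ _

lemma exists_list {x : (W.H X →ₗ[W.K] W.H Y) × (T.M X →ₗ[W.K] T.M Y)}
    (hx : x ∈ corrPairs T X Y) : ∃ l : List (W.K × (X.prod Y).Cycles), PureList W l ∧
      (∀ a, x.1 a = actH W l a) ∧ ∀ m, x.2 m = actT T l m := by
  refine corrPairs.ind (q := fun x => ∃ l : List (W.K × (X.prod Y).Cycles), PureList W l ∧
      (∀ a, x.1 a = actH W l a) ∧ ∀ m, x.2 m = actT T l m) ?_ ?_ ?_ ?_ hx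
  · intro p Γ hΓ
    refine ⟨[(1, Γ)], ?_, fun a => ?_, fun m => ?_⟩
    · intro x hx
      rw [List.mem_singleton] at hx
      subst hx
      exact ⟨p, hΓ⟩
    · rw [actH, List.map_singleton, List.sum_singleton, one_smul]; rfl
    · rw [actT, List.map_singleton, List.sum_singleton, one_smul]; rfl
  · exact ⟨[], fun x hx => absurd hx List.not_mem_nil, fun a => rfl, fun m => rfl⟩
  · rintro x y ⟨l, hl, h1, h2⟩ ⟨l', hl', h1', h2'⟩
    refine ⟨l ++ l', fun x hx => ?_, fun a => ?_, fun m => ?_⟩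
    · rcases List.mem_append.1 hx with h | h
      · exact hl x h
      · exact hl' x h
    · rw [actH_append, ← h1, ← h1']; rfl
    · rw [actT_append, ← h2, ← h2']; rfl
  · rintro c x ⟨l, hl, h1, h2⟩
    refine ⟨l.map fun x => (c * x.1, x.2), fun x hx => ?_, fun a => ?_, fun m => ?_⟩
    · obtain ⟨y, hy, rfl⟩ := List.mem_map.1 hx
      exact hl y hy
    · rw [actH_scale, ← h1]; rfl
    · rw [actT_scale, ← h2]; rfl

lemma exists_pair {l : List (W.K × (X.prod Y).Cycles)} (hl : PureList W l) :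
    ∃ x : (W.H X →ₗ[W.K] W.H Y) × (T.M X →ₗ[W.K] T.M Y), x ∈ corrPairs T X Y ∧
      (∀ a, x.1 a = actH W l a) ∧ ∀ m, x.2 m = actT T l m := by
  induction l with
  | nil => exact ⟨0, Submodule.zero_mem _, fun a => rfl, fun m => rfl⟩
  | cons y l ih =>
    obtain ⟨x, hx, h1, h2⟩ := ih fun z hz => hl z (List.mem_cons_of_mem _ hz)
    obtain ⟨p, hp⟩ := hl y (by simp)
    refine ⟨y.1 • (W.corr (W.cl _ y.2), T.actL y.2) + x,
      Submodule.add_mem _ (Submodule.smul_mem _ _ (corrPairs.of hp)) hx, fun a => ?_, fun m => ?_⟩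
    · rw [actH, List.map_cons, List.sum_cons]
      exact congrArg₂ (· + ·) rfl (h1 a)
    · rw [actT, List.map_cons, List.sum_cons]
      exact congrArg₂ (· + ·) rfl (h2 m)

lemma actT_sum (l : List (W.K × (X.prod Y).Cycles)) (a : A.M X) (b : B.M X) :
    actT (A.sum B) l (a, b) = (actT A l a, actT B l b) := by
  induction l with
  | nil => rfl
  | cons y l ih =>
    exact congrArg (fun z : A.M Y × B.M Y => (y.1 • A.act y.2 a, y.1 • B.act y.2 b) + z) ih

lemma pairNilpotent (h : HomTrivialNilpotent T X) : PairNilpotent T X := by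
  intro m x hx h0
  obtain ⟨l, hl, h1, h2⟩ := exists_list hx
  obtain ⟨N, hN⟩ := h m l hl fun a => by rw [← h1, h0]; rfl
  refine ⟨N, ?_⟩
  apply LinearMap.ext
  intro t
  rw [Module.End.pow_apply, LinearMap.zero_apply, ← hN t]
  have h3 : (x.2 : T.M (pw X m) → T.M (pw X m)) = actT T l := funext h2
  rw [h3]

lemma finrank_range_eq {P Q : 𝒱.Obj} {x : W.H P →ₗ[W.K] W.H Q}
    {l : List (W.K × (P.prod Q).Cycles)} (h : ∀ a, x a = actH W l a) :
    Set.finrank W.K (Set.range (actH W l)) = finrank W.K (LinearMap.range x) := by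
  have h1 : Set.range (actH W l) = (LinearMap.range x : Set (W.H Q)) := by
    rw [LinearMap.coe_range]
    exact congrArg Set.range (funext fun a => (h a).symm)
  rw [h1, Set.finrank, Submodule.span_eq]

lemma bijBelow_of {φ : NatMap A B} {d : ℕ} (h : BijectiveBelow φ X d) : BijBelow φ X d := by
  intro m x hx hxx hr
  obtain ⟨l, hl, h1, h2⟩ := exists_list hx
  have hx1 : x.1 * x.1 = x.1 := congrArg Prod.fst hxx
  have hx2 : x.2 * x.2 = x.2 := congrArg Prod.snd hxx
  have h3 : ∀ a b, x.2 (a, b) = (actT A l a, actT B l b) := fun a b =>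
    (h2 (a, b)).trans (actT_sum l a b)
  have h4 : ∀ a b, x.2 (x.2 (a, b)) = x.2 (a, b) := fun a b =>
    congrArg (fun f : Module.End W.K (A.M (pw X m) × B.M (pw X m)) => f (a, b)) hx2
  have h5 : ∀ a b, (actT A l (actT A l a), actT B l (actT B l b)) =
      (actT A l a, actT B l b) := fun a b => by
    have := h4 a b
    rw [h3 a b, h3] at this
    exact this
  obtain ⟨e1, e2⟩ := h m l hl (fun a => by
      rw [← h1, ← h1]
      exact congrArg (fun f : Module.End W.K (W.H (pw X m)) => f a) hx1)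
    (fun a => congrArg Prod.fst (h5 a 0)) (fun b => congrArg Prod.snd (h5 0 b))
    (by rw [finrank_range_eq h1]; exact hr)
  refine ⟨fun a ha => ?_, fun b => ?_⟩
  · rw [h3] at ha ⊢
    exact e1 a ha
  · rw [h3]
    exact e2 b

lemma bijectiveBelow_one {φ : NatMap A B} (hA : HomTrivialNilpotent A X)
    (hB : HomTrivialNilpotent B X) : BijectiveBelow φ X 1 := by
  intro m l hl h1 h2 h3 hr
  obtain ⟨x, hx, e1, e2⟩ := exists_pair (T := A) hl
  obtain ⟨y, hy, f1, f2⟩ := exists_pair (T := B) hl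
  rw [finrank_range_eq e1] at hr
  have g1 : LinearMap.range x.1 = ⊥ := Submodule.finrank_eq_zero.1 (by omega)
  have g2 : x.1 = 0 := LinearMap.range_eq_bot.1 g1
  have g2' : y.1 = 0 := by
    rw [← g2]
    exact LinearMap.ext fun a => (f1 a).trans (e1 a).symm
  have g3 : (x.2 : Module.End W.K (A.M (pw X m))) = 0 := by
    refine idem_nil ?_ (pairNilpotent hA m x hx g2)
    apply LinearMap.ext
    intro a
    change x.2 (x.2 a) = x.2 a
    rw [e2, e2]
    exact h2 a
  have g4 : (y.2 : Module.End W.K (B.M (pw X m))) = 0 := by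
    refine idem_nil ?_ (pairNilpotent hB m y hy g2')
    apply LinearMap.ext
    intro a
    change y.2 (y.2 a) = y.2 a
    rw [f2, f2]
    exact h3 a
  refine ⟨fun a _ => ?_, fun b => ⟨0, ?_⟩⟩
  · rw [← e2, g3]; rfl
  · rw [← f2, g4]
    exact (φ.lin _).map_zero

end List

section Rank

variable {K V V' : Type*} [Field K] [AddCommGroup V] [Module K V] [AddCommGroup V'] [Module K V']

lemma exists_family {V : Type w} [AddCommGroup V] [Module K V] {N : ℕ}
    (h : (N : Cardinal.{w}) ≤ Module.rank K V) : ∃ a : Fin N → V, LinearIndependent K a := by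
  obtain ⟨s, hs, hli⟩ := (le_rank_iff_exists_linearIndependent_finset).1 h
  exact ⟨fun i => (s.equivFinOfCardEq hs).symm i, hli.comp _ (Equiv.injective _)⟩

lemma split_card {κ lam : Cardinal.{w}} {N : ℕ} (h : (N : Cardinal.{w}) ≤ κ + lam) :
    ∃ p q : ℕ, N ≤ p + q ∧ (p : Cardinal.{w}) ≤ κ ∧ (q : Cardinal.{w}) ≤ lam := by
  by_cases h1 : (N : Cardinal.{w}) ≤ κ
  · exact ⟨N, 0, by omega, h1, by simp⟩
  by_cases h2 : (N : Cardinal.{w}) ≤ lam
  · exact ⟨0, N, by omega, by simp, h2⟩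
  rw [not_le] at h1 h2
  obtain ⟨p, rfl⟩ := Cardinal.lt_aleph0.1 (h1.trans (Cardinal.natCast_lt_aleph0))
  obtain ⟨q, rfl⟩ := Cardinal.lt_aleph0.1 (h2.trans (Cardinal.natCast_lt_aleph0))
  exact ⟨p, q, by exact_mod_cast h, le_rfl, le_rfl⟩

end Rank

lemma defectGE_of (φ : NatMap A B) {P : 𝒱.Obj} {N : ℕ}
    (h : (N : Cardinal.{w}) ≤ Module.rank W.K ((kerCok φ).M P)) : DefectGE φ P N := by
  have h1 : Module.rank W.K ((kerCok φ).M P) = Module.rank W.K (LinearMap.ker (φ.lin P)) +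
      Module.rank W.K (B.M P ⧸ LinearMap.range (φ.lin P)) := rank_prod'
  rw [h1] at h
  obtain ⟨p, q, hN, hp, hq⟩ := split_card h
  obtain ⟨a, ha⟩ := exists_family hp
  obtain ⟨b', hb'⟩ := exists_family hq
  choose b hb using fun i => Submodule.mkQ_surjective _ (b' i)
  refine ⟨p, q, fun i => a i, b, hN, ?_, fun i => LinearMap.mem_ker.1 (a i).2, ?_⟩
  · exact ha.map' (Submodule.subtype _) (Submodule.ker_subtype _)
  · rintro c ⟨a', ha'⟩
    funext i
    refine Fintype.linearIndependent_iff.1 hb' c ?_ i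
    have h2 : (LinearMap.range (φ.lin P)).mkQ (∑ i, c i • b i) = 0 :=
      (Submodule.Quotient.mk_eq_zero _).2 ⟨a', ha'⟩
    rw [map_sum] at h2
    rw [← h2]
    refine Finset.sum_congr rfl fun i _ => ?_
    rw [map_smul, hb]

/-- **The zero-one law for natural maps.** -/
theorem zero_one_map (φ : NatMap A B) (hW : NumTrivialNilpotent W X)
    (hA : HomTrivialNilpotent A X) (hB : HomTrivialNilpotent B X) :
    BijectiveBelow φ X 1 ∧ ∀ d : ℕ, BijectiveBelow φ X d →
      (∀ n, Function.Bijective (φ.f (X := pw X n))) ∨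
        ∀ ε : ℝ, 0 < ε → ∃ n₀ : ℕ, ∀ n ≥ n₀, ∀ N : ℕ,
          (N : ℝ) ≤ ((d : ℝ) - ε) * cycRank ops (pw X n) → DefectGE φ (pw X n) N := by
  have hn := sum_nilpotent (pairNilpotent hA) (pairNilpotent hB) φ
  refine ⟨bijectiveBelow_one hA hB, fun d hd => ?_⟩
  rcases zero_one_theory hW (kerCok_nilpotent (φ := φ) hn) d
    (kerCok_vanishes hn (bijBelow_of hd)) with h | h
  · exact Or.inl fun n => (subsingleton_iff φ _).1 (h n)
  · right
    intro ε hε
    obtain ⟨n₀, hn₀⟩ := h ε hε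
    exact ⟨n₀, fun n hn N hN => defectGE_of φ (hn₀ n hn N hN)⟩

end Pool.Agent.Q56.ZO
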