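import Pool.Agent.Q56.ZO.Low

/-!
# The zero-one law for theories on which algebraic correspondences act
-/

set_option autoImplicit false

open CategoryTheory AlgebraicGeometry

universe u v w

namespace Pool.Agent.Q56.ZO

open Module
open Pool.Agent.H914 Pool.Agent.H914.VarClass Pool.Agent.H914.VarClass.Obj
  Pool.Agent.H914.WeilCohomology Pool.Agent.Y133.Half Pool.Agent.Q55.Rate
  Pool.Agent.H281R3.HT

variable {k : Type u} [Field k] {𝒱 : VarClass k} {ops : CycleOps 𝒱}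
  {W : WeilCohomology.{u, v} ops} {T : CycTheory.{u, v, w} W} {X Y Z P Q : 𝒱.Obj}

lemma one_mem_NOp (S : Sys W) (h : ∀ c ∈ S.C P, W.tr P c = 0) :
    (LinearMap.id : W.H P →ₗ[W.K] W.H P) ∈ S.NOp P P := by
  rw [← Sys.corr_diag_one]
  refine Sys.NOp.corr ⟨Sys.diag_mem, fun d hd => ?_⟩
  rw [W.tr_push, one_mul]
  exact h _ (S.map _ hd)

lemma subsingleton_of_one (hT : ∀ x ∈ corrPairs T P P, x.1 = 0 →
      IsNilpotent (x.2 : Module.End W.K (T.M P)))
    (h : (LinearMap.id : W.H P →ₗ[W.K] W.H P) = 0) : Subsingleton (T.M P) := by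
  obtain ⟨N, hN⟩ := hT _ (corrPairs.one T P) h
  by_contra h0
  rw [not_subsingleton_iff_nontrivial] at h0
  have h6 : (1 : Module.End W.K (T.M P)) ^ N = 0 := hN
  rw [one_pow] at h6
  exact one_ne_zero h6

/-- **The zero-one law.** -/
theorem zero_one_theory (hW : NumTrivialNilpotent W X) (hT : PairNilpotent T X) (d : ℕ)
    (hd : VanishesBelow T X d) :
    (∀ n, Subsingleton (T.M (pw X n))) ∨ ∀ ε : ℝ, 0 < ε → ∃ n₀ : ℕ, ∀ n ≥ n₀, ∀ N : ℕ,
      (N : ℝ) ≤ ((d : ℝ) - ε) * cycRank ops (pw X n) →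
        (N : Cardinal.{w}) ≤ Module.rank W.K (T.M (pw X n)) := by
  set S := algSys W with hS
  by_cases hZ : ∀ l ∈ S.C X, W.tr X l = 0
  · left
    intro n
    apply subsingleton_of_one (hT n)
    have h1 : ∀ c ∈ S.C (pw X n), W.tr (pw X n) c = 0 := by
      intro c hc
      have h2 := W.tr_push (prj X n 0) c 1
      rw [mul_one, map_one, mul_one] at h2
      rw [← h2]
      exact hZ _ (S.push _ hc)
    obtain ⟨N, hN⟩ := hW n _ (isNumTrivialOp_iff.2 (one_mem_NOp S h1))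
    have h3 : (1 : Module.End W.K (W.H (pw X n))) ^ N = 0 := hN
    rw [one_pow] at h3
    exact h3
  by_cases hsub : ∀ n, Subsingleton (T.M (pw X n))
  · exact Or.inl hsub
  right
  push Not at hZ
  obtain ⟨l', hl', hl'0⟩ := hZ
  obtain ⟨l, hl, hl1⟩ : ∃ l ∈ S.C X, W.tr X l = 1 :=
    ⟨(W.tr X l')⁻¹ • l', Submodule.smul_mem _ _ hl', by
      rw [map_smul, smul_eq_mul, inv_mul_cancel₀ hl'0]⟩
  have h1 : (1 : W.H X) ≠ 0 := one_ne_zero_of (ne_zero_of_tr hl1)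
  have hX : 0 < finrank W.K (W.H X) := by
    have : Nontrivial (W.H X) := ⟨⟨1, 0, h1⟩⟩
    exact Module.finrank_pos
  have hpos : ∀ n, 0 < S.al X n := by
    intro n
    obtain ⟨m, hm, hm1⟩ := S.exists_lam hl hl1 n
    refine S.a_pos (Sys.xp_mem_C S hm hm) ?_
    rw [tr_xp, hm1, mul_one]
  have hB := ratios_of_nilpotent hW hpos
  push Not at hsub
  obtain ⟨m, hm⟩ := hsub
  intro ε hε
  have key : ∀ p : ℕ, ∃ n₀ : ℕ, ∀ n ≥ n₀, n % 2 = p % 2 → ∀ N : ℕ,
      (N : ℝ) ≤ ((d : ℝ) - ε) * cycRank ops (pw X n) →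
        (N : Cardinal.{w}) ≤ Module.rank W.K (T.M (pw X n)) := by
    intro p
    obtain ⟨m', hm'p, hm'⟩ : ∃ m', m' % 2 = p % 2 ∧ Nontrivial (T.M (pw X m')) := by
      by_cases h : m % 2 = p % 2
      · exact ⟨m, h, hm⟩
      · exact ⟨m + 1, by omega, nontrivial_succ hl hl1 hT⟩
    obtain ⟨n₀, hn₀⟩ := lower_r S hB hX (m := m') d hε
    obtain ⟨x, hx, hxx, hx2, hxZ⟩ := key (T := T) (P := pw X m') (hT m')
    have hdx : d ≤ finrank W.K (LinearMap.range x.1) := by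
      by_contra h
      exact hx2 (hd m' x hx hxx (not_le.1 h))
    refine ⟨n₀, fun n hn hp N hN => ?_⟩
    have h2 := hn₀ n hn (hp.trans hm'p.symm) x.1 (corrPairs.op hx) (congrArg Prod.fst hxx) hdx
    rw [← numDim_eq_cycRank W] at hN
    have h3 : (N : ℝ) ≤ S.r (pw X m') x.1 (pw X n) := hN.trans h2
    have h4 : N ≤ S.r (pw X m') x.1 (pw X n) := by exact_mod_cast h3
    exact le_trans (by exact_mod_cast h4) (hxZ (pw X n))
  obtain ⟨n₁, h₁⟩ := key 0
  obtain ⟨n₂, h₂⟩ := key 1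
  refine ⟨max n₁ n₂, fun n hn => ?_⟩
  rcases Nat.mod_two_eq_zero_or_one n with h | h
  · exact h₁ n ((le_max_left _ _).trans hn) h
  · exact h₂ n ((le_max_right _ _).trans hn) h

end Pool.Agent.Q56.ZO
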