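import Pool.Agent.Q55.Rate.Defs
import Pool.Agent.H914R2.CorrDefs

/-!
# Theories on which algebraic correspondences act: definitions
-/

set_option autoImplicit false

open CategoryTheory AlgebraicGeometry

universe u v w

namespace Pool.Agent.Q56.ZO

open Pool.Agent.H914 Pool.Agent.H914.VarClass Pool.Agent.H914.VarClass.Obj
  Pool.Agent.H914.WeilCohomology Pool.Agent.Y133.Half Pool.Agent.Q55.Rate

variable {k : Type u} [Field k] {𝒱 : VarClass k} {ops : CycleOps 𝒱}

/-- A theory on which algebraic correspondences act: vector spaces `M(X)` over the coefficient field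
of the Weil cohomology theory `W`, and for all cycles `Γ` on `X × Y` additive maps
`M(X) → M(Y)`, additive in `Γ` and compatible with the composition of correspondences (which is zero
if its codimension is negative) and with the diagonal. -/
structure CycTheory (W : WeilCohomology.{u, v} ops) where
  M : 𝒱.Obj → Type w
  [group : ∀ X, AddCommGroup (M X)]
  [module : ∀ X, Module W.K (M X)]
  act : ∀ {X Y : 𝒱.Obj}, (X.prod Y).Cycles → M X → M Y
  act_add : ∀ {X Y : 𝒱.Obj} (Γ : (X.prod Y).Cycles) (m n : M X),
    act Γ (m + n) = act Γ m + act Γ n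
  act_smul : ∀ {X Y : 𝒱.Obj} (Γ : (X.prod Y).Cycles) (c : W.K) (m : M X),
    act Γ (c • m) = c • act Γ m
  add_act : ∀ {X Y : 𝒱.Obj} (Γ Δ : (X.prod Y).Cycles) (m : M X),
    act (Γ + Δ) m = act Γ m + act Δ m
  act_comp : ∀ {X Y Z : 𝒱.Obj} {p q : ℕ} {Γ : (X.prod Y).Cycles} {Δ : (Y.prod Z).Cycles},
    (X.prod Y).IsCyc p Γ → (Y.prod Z).IsCyc q Δ → ∀ m : M X,
      act Δ (act Γ m) = if Y.dim ≤ p + q then act (compCyc ops Γ Δ) m else 0
  act_diag : ∀ {X : 𝒱.Obj} (m : M X), act (ops.push (diag X) X.V.fundCycle) m = m

attribute [instance] CycTheory.group CycTheory.module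

variable {W : WeilCohomology.{u, v} ops}

/-- A natural linear map between theories on which correspondences act, for example a regulator
map. -/
structure NatMap (A : CycTheory.{u, v, w} W) (B : CycTheory.{u, v, w} W) where
  f : ∀ {X : 𝒱.Obj}, A.M X → B.M X
  f_add : ∀ {X : 𝒱.Obj} (m n : A.M X), f (m + n) = f m + f n
  f_smul : ∀ {X : 𝒱.Obj} (c : W.K) (m : A.M X), f (c • m) = c • f m
  nat : ∀ {X Y : 𝒱.Obj} (Γ : (X.prod Y).Cycles) (m : A.M X), f (A.act Γ m) = B.act Γ (f m)

/-- A natural map as a linear map. -/
def NatMap.lin {A B : CycTheory.{u, v, w} W} (φ : NatMap A B) (X : 𝒱.Obj) :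
    A.M X →ₗ[W.K] B.M X where
  toFun := φ.f
  map_add' := φ.f_add
  map_smul' := φ.f_smul

/-- The linear map `M(X) → M(Y)` given by a cycle on `X × Y`. -/
def CycTheory.actL (T : CycTheory.{u, v, w} W) {X Y : 𝒱.Obj} (Γ : (X.prod Y).Cycles) :
    T.M X →ₗ[W.K] T.M Y where
  toFun := T.act Γ
  map_add' := T.act_add Γ
  map_smul' := T.act_smul Γ

/-- The pairs consisting of an operator `H(X) → H(Y)` and an operator `M(X) → M(Y)` which are given
by one and the same linear combination, with coefficients in the coefficient field, of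
correspondences. -/
def corrPairs (T : CycTheory.{u, v, w} W) (X Y : 𝒱.Obj) :
    Submodule W.K ((W.H X →ₗ[W.K] W.H Y) × (T.M X →ₗ[W.K] T.M Y)) :=
  Submodule.span W.K {x | ∃ (p : ℕ) (Γ : (X.prod Y).Cycles), (X.prod Y).IsCyc p Γ ∧
    x = (W.corr (W.cl _ Γ), T.actL Γ)}

/-- Homologically trivial pairs from a power of `X` to itself are nilpotent. -/
def PairNilpotent (T : CycTheory.{u, v, w} W) (X : 𝒱.Obj) : Prop :=
  ∀ (m : ℕ) (x : Module.End W.K (W.H (pw X m)) × Module.End W.K (T.M (pw X m))),
    x ∈ corrPairs T (pw X m) (pw X m) → x.1 = 0 → IsNilpotent x.2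

/-- The theory `T` vanishes on all direct factors of rank less than `d` of the powers of `X`. -/
def VanishesBelow (T : CycTheory.{u, v, w} W) (X : 𝒱.Obj) (d : ℕ) : Prop :=
  ∀ (m : ℕ) (x : Module.End W.K (W.H (pw X m)) × Module.End W.K (T.M (pw X m))),
    x ∈ corrPairs T (pw X m) (pw X m) → x * x = x →
      Module.finrank W.K (LinearMap.range x.1) < d → x.2 = 0

section List

variable {X Y : 𝒱.Obj}

/-- A list of pairs of a coefficient and a cycle of pure codimension on `X × Y`, standing for the
corresponding linear combination: a correspondence with coefficients in the coefficient field. -/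
def PureList (W : WeilCohomology.{u, v} ops) (l : List (W.K × (X.prod Y).Cycles)) : Prop :=
  ∀ x ∈ l, ∃ p : ℕ, (X.prod Y).IsCyc p x.2

/-- The action of a cycle on `X × Y` on the cohomology. -/
noncomputable def actC (W : WeilCohomology.{u, v} ops) (Γ : (X.prod Y).Cycles) (a : W.H X) :
    W.H Y :=
  W.corr (W.cl _ Γ) a

/-- The action of a linear combination of cycles on `X × Y` on the cohomology. -/
noncomputable def actH (W : WeilCohomology.{u, v} ops) (l : List (W.K × (X.prod Y).Cycles))
    (a : W.H X) : W.H Y :=
  (l.map fun x => x.1 • actC W x.2 a).sum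

/-- The action of a linear combination of cycles on `X × Y` on the theory `T`. -/
def actT (T : CycTheory.{u, v, w} W) (l : List (W.K × (X.prod Y).Cycles)) (m : T.M X) : T.M Y :=
  (l.map fun x => x.1 • T.act x.2 m).sum

end List

/-- The homologically trivial correspondences from a power of `X` to itself, with coefficients in the
coefficient field, act as nilpotent operators on the theory `T`. (This holds if the Chow motive of
`X` is finite-dimensional in the sense of Kimura and O'Sullivan, for example for products of curves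
and for abelian varieties, and `T` is a theory on which Chow correspondences act.) -/
def HomTrivialNilpotent (T : CycTheory.{u, v, w} W) (X : 𝒱.Obj) : Prop :=
  ∀ (m : ℕ) (l : List (W.K × ((pw X m).prod (pw X m)).Cycles)), PureList W l →
    (∀ a, actH W l a = 0) → ∃ N : ℕ, ∀ t, (actT T l)^[N] t = 0

variable {A B : CycTheory.{u, v, w} W}

/-- The natural map `φ : A → B` is bijective on all direct factors of rank less than `d` of the
powers of `X`: if a linear combination of correspondences from a power of `X` to itself is
idempotent on the cohomology, on `A` and on `B`, and has rank less than `d` on the cohomology, then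
`φ` maps its image on `A` bijectively onto its image on `B`. -/
def BijectiveBelow (φ : NatMap A B) (X : 𝒱.Obj) (d : ℕ) : Prop :=
  ∀ (m : ℕ) (l : List (W.K × ((pw X m).prod (pw X m)).Cycles)), PureList W l →
    (∀ a, actH W l (actH W l a) = actH W l a) → (∀ a, actT A l (actT A l a) = actT A l a) →
    (∀ b, actT B l (actT B l b) = actT B l b) → Set.finrank W.K (Set.range (actH W l)) < d →
      (∀ a, φ.f (actT A l a) = 0 → actT A l a = 0) ∧ ∀ b, ∃ a, φ.f a = actT B l b

/-- The sum of the dimensions of the kernel and of the cokernel of the natural map `φ` at `X` is at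
least `N`: there are `p` linearly independent elements of the kernel, and `q` elements of `B(X)`
which are linearly independent modulo the image, with `N ≤ p + q`. -/
def DefectGE (φ : NatMap A B) (X : 𝒱.Obj) (N : ℕ) : Prop :=
  ∃ (p q : ℕ) (a : Fin p → A.M X) (b : Fin q → B.M X), N ≤ p + q ∧ LinearIndependent W.K a ∧
    (∀ i, φ.f (a i) = 0) ∧
    ∀ c : Fin q → W.K, (∃ a' : A.M X, φ.f a' = ∑ i, c i • b i) → c = 0

end Pool.Agent.Q56.ZO
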