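import Mathlib

/-!
# Algebras of pairs of operators
-/

set_option autoImplicit false
set_option linter.unusedSectionVars false

open Polynomial Module

namespace Pool.Agent.Q56.ZO

section Alg

variable {K A : Type*} [Field K] [Ring A] [Algebra K A]

/-- The Fitting projector of an algebraic element is a polynomial multiple of the element. -/
lemma exists_fit' (y : A) {χ : K[X]} (hχ : χ ≠ 0) (hy : aeval y χ = 0) : ∃ q : K[X],
    (aeval y q * y) * (aeval y q * y) = aeval y q * y ∧ (aeval y q * y = 0 → IsNilpotent y) := by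
  obtain ⟨f, hf, hnd⟩ := exists_eq_pow_rootMultiplicity_mul_and_not_dvd χ hχ 0
  set m := χ.rootMultiplicity 0
  rw [map_zero, sub_zero] at hf hnd
  have hirr : Irreducible (X : K[X]) := irreducible_X
  have hc : IsCoprime ((X : K[X]) ^ (m + 1)) f :=
    ((hirr.coprime_iff_not_dvd).2 hnd).pow_left
  obtain ⟨a, b, hab⟩ := hc
  have hmin : aeval y (X ^ m * f) = 0 := by rw [← hf]; exact hy
  have hq : aeval y (a * X ^ m) * y = aeval y (a * X ^ (m + 1)) := by
    have : a * X ^ (m + 1) = (a * X ^ m) * X := by ring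
    rw [this, map_mul (aeval y) (a * X ^ m) X, aeval_X]
  refine ⟨a * X ^ m, ?_, ?_⟩
  · rw [hq, ← map_mul]
    have h1 : a * X ^ (m + 1) * (a * X ^ (m + 1)) =
        a * X ^ (m + 1) - (a * b * X) * (X ^ m * f) := by
      have : a * X ^ (m + 1) = 1 - b * f := by rw [← hab]; ring
      calc a * X ^ (m + 1) * (a * X ^ (m + 1)) = a * X ^ (m + 1) * (1 - b * f) := by
            rw [← this]
        _ = _ := by ring
    rw [h1, map_sub, map_mul (aeval y) (a * b * X), hmin, mul_zero, sub_zero]
  · intro h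
    rw [hq] at h
    refine ⟨m + 1, ?_⟩
    have h1 : aeval y (b * f) = 1 := by
      have h2 := congrArg (aeval y) hab
      rw [map_add, h, zero_add, map_one] at h2
      exact h2
    have h3 : y ^ (m + 1) = aeval y ((X : K[X]) ^ (m + 1)) * aeval y (b * f) := by
      rw [h1, mul_one, map_pow, aeval_X]
    have h4 : (X : K[X]) ^ (m + 1) * (b * f) = (b * X) * (X ^ m * f) := by ring
    rw [h3, ← map_mul, h4, map_mul (aeval y) (b * X), hmin, mul_zero]

end Alg

section Pair

variable {K V M : Type*} [Field K] [AddCommGroup V] [Module K V] [FiniteDimensional K V]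
  [AddCommGroup M] [Module K M]

lemma fst_aeval (y : End K V × End K M) (q : K[X]) : (aeval y q).1 = aeval y.1 q := by
  induction q using Polynomial.induction_on' with
  | add p q hp hq => rw [map_add, map_add, Prod.fst_add, hp, hq]
  | monomial n a =>
    rw [aeval_monomial, aeval_monomial, Prod.fst_mul, Prod.pow_fst]
    rfl

lemma snd_aeval (y : End K V × End K M) (q : K[X]) : (aeval y q).2 = aeval y.2 q := by
  induction q using Polynomial.induction_on' with
  | add p q hp hq => rw [map_add, map_add, Prod.snd_add, hp, hq]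
  | monomial n a =>
    rw [aeval_monomial, aeval_monomial, Prod.snd_mul, Prod.pow_snd]
    rfl

variable {A : Subalgebra K (End K V × End K M)}

lemma aeval_mem' {y : End K V × End K M} (hy : y ∈ A) (q : K[X]) : aeval y q ∈ A :=
  (Algebra.adjoin_le (Set.singleton_subset_iff.2 hy)) (aeval_mem_adjoin_singleton _ _)

/-- All pairs are algebraic. -/
lemma exists_annihilator (hnil : ∀ x ∈ A, x.1 = 0 → IsNilpotent x.2) {y : End K V × End K M}
    (hy : y ∈ A) : ∃ χ : K[X], χ ≠ 0 ∧ aeval y χ = 0 := by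
  have h0 : minpoly K y.1 ≠ 0 := minpoly.ne_zero (Algebra.IsIntegral.isIntegral y.1)
  have h1 := aeval_mem' hy (minpoly K y.1)
  have h2 : (aeval y (minpoly K y.1)).1 = 0 := by rw [fst_aeval]; exact minpoly.aeval _ _
  obtain ⟨N, hN⟩ := hnil _ h1 h2
  refine ⟨minpoly K y.1 ^ (N + 1), pow_ne_zero _ h0, ?_⟩
  rw [map_pow]
  refine Prod.ext ?_ ?_
  · rw [Prod.pow_fst, h2, Prod.fst_zero, zero_pow (Nat.succ_ne_zero N)]
  · rw [Prod.pow_snd, pow_succ, hN, zero_mul, Prod.snd_zero]

lemma idem_nil {R : Type*} [Ring R] {g : R} (hgg : g * g = g) (hn : IsNilpotent g) : g = 0 := by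
  obtain ⟨n, hn⟩ := hn
  have h : ∀ m : ℕ, g ^ (m + 1) = g := by
    intro m
    induction m with
    | zero => rw [zero_add, pow_one]
    | succ m ih => rw [pow_succ, ih, hgg]
  rw [← h n, pow_succ, hn, zero_mul]

lemma rank_sub_lt {g π : End K V} (h1 : g * g = g) (h2 : g * π = π) (h3 : π * g = π)
    (h4 : π * π = π) (h0 : π ≠ 0) :
    finrank K (LinearMap.range (g - π)) < finrank K (LinearMap.range g) := by
  have f1 : g * (g - π) = g - π := by rw [mul_sub, h2, h1]
  have f3 : π * (g - π) = 0 := by rw [mul_sub, h3, h4, sub_self]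
  have hle : LinearMap.range (g - π) ≤ LinearMap.range g := by
    rintro _ ⟨x, rfl⟩
    exact ⟨(g - π) x, congrArg (fun f : End K V => f x) f1⟩
  apply Submodule.finrank_lt_finrank_of_lt
  refine lt_of_le_of_ne hle ?_
  intro heq
  apply h0
  apply LinearMap.ext
  intro x
  have h5 : π x ∈ LinearMap.range g := ⟨π x, congrArg (fun f : End K V => f x) h2⟩
  rw [← heq] at h5
  obtain ⟨w, hw⟩ := h5
  have h6 : π ((g - π) w) = 0 := congrArg (fun f : End K V => f w) f3
  rw [hw] at h6
  have h7 : π (π x) = π x := congrArg (fun f : End K V => f x) h4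
  rw [LinearMap.zero_apply, ← h7, h6]

/-- **The key property.** -/
theorem exists_key (hnil : ∀ x ∈ A, x.1 = 0 → IsNilpotent x.2) {p : End K V}
    (hp : ∀ x ∈ A, p * x.1 = x.1 * p) [Nontrivial M] :
    ∃ g ∈ A, g * g = g ∧ ∃ z : M, g.2 z = z ∧ z ≠ 0 ∧
      ∀ x ∈ A, x.2 z = 0 → LinearMap.trace K V (p * (g.1 * x.1)) = 0 := by
  classical
  let Q : ℕ → Prop := fun n => ∃ g ∈ A, g * g = g ∧ g.2 ≠ 0 ∧
    finrank K (LinearMap.range g.1) = n
  have hQ : ∃ n, Q n := ⟨_, 1, Subalgebra.one_mem _, one_mul _, one_ne_zero, rfl⟩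
  obtain ⟨g, hg, hgg, hg2, hn⟩ := Nat.find_spec hQ
  have hmin : ∀ g' ∈ A, g' * g' = g' → finrank K (LinearMap.range g'.1) <
      finrank K (LinearMap.range g.1) → g'.2 = 0 := by
    intro g' hg' hgg' hlt'
    by_contra h
    rw [hn] at hlt'
    exact Nat.find_min hQ hlt' ⟨g', hg', hgg', h, rfl⟩
  have hgg1 : g.1 * g.1 = g.1 := congrArg Prod.fst hgg
  have hgg2 : g.2 * g.2 = g.2 := congrArg Prod.snd hgg
  obtain ⟨z', hz'⟩ : ∃ z', g.2 z' ≠ 0 := by
    by_contra h
    push Not at h
    exact hg2 (LinearMap.ext h)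
  set z := g.2 z' with hz
  have hgz : g.2 z = z := congrArg (fun f : End K M => f z') hgg2
  refine ⟨g, hg, hgg, z, hgz, hz', fun x hx hxz => ?_⟩
  set y := g * x * g with hy
  have hyS : y ∈ A := Subalgebra.mul_mem _ (Subalgebra.mul_mem _ hg hx) hg
  have hgy : g * y = y := by rw [hy, ← mul_assoc, ← mul_assoc, hgg]
  have hyg : y * g = y := by rw [hy, mul_assoc, hgg]
  have hyz : y.2 z = 0 := by
    rw [hy]
    change g.2 (x.2 (g.2 z)) = 0
    rw [hgz, hxz, map_zero]
  obtain ⟨χ, hχ, hχy⟩ := exists_annihilator hnil hyS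
  obtain ⟨q, hq1, hq2⟩ := exists_fit' y hχ hχy
  set u := aeval y q with hu
  have huS : u ∈ A := aeval_mem' hyS q
  have hcomm : u * y = y * u := by
    have : Commute (aeval y q) (aeval y (X : K[X])) := by
      rw [Commute, SemiconjBy, ← map_mul, ← map_mul, mul_comm]
    rw [aeval_X] at this
    exact this
  set π := u * y with hπ
  have hπS : π ∈ A := Subalgebra.mul_mem _ huS hyS
  have hgπ : g * π = π := by rw [hcomm, ← mul_assoc, hgy]
  have hπg : π * g = π := by rw [hπ, mul_assoc, hyg]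
  have hπ1 : π.1 = 0 := by
    by_contra hne
    have h1 : (g - π) * (g - π) = g - π := by
      rw [sub_mul, mul_sub, mul_sub, hgπ, hπg, hq1, sub_self, sub_zero, hgg]
    have h2 : (g - π) ∈ A := Subalgebra.sub_mem _ hg hπS
    have h3 : finrank K (LinearMap.range (g - π).1) < finrank K (LinearMap.range g.1) :=
      rank_sub_lt hgg1 (congrArg Prod.fst hgπ) (congrArg Prod.fst hπg) (congrArg Prod.fst hq1) hne
    have h4 : (g - π).2 = 0 := hmin _ h2 h1 h3
    have h5 : g.2 = π.2 := sub_eq_zero.1 h4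
    have h6 : π.2 z = 0 := by
      rw [hπ]
      change u.2 (y.2 z) = 0
      rw [hyz, map_zero]
    apply hz'
    rw [← hgz, h5, h6]
  have hπ0 : π = 0 := Prod.ext hπ1 (idem_nil (congrArg Prod.snd hq1) (hnil π hπS hπ1))
  have hnil1 : IsNilpotent y.1 := by
    obtain ⟨N, hN⟩ := hq2 hπ0
    exact ⟨N, congrArg Prod.fst hN⟩
  have h7 : LinearMap.trace K V (p * y.1) = 0 := by
    have h2 : IsNilpotent (p * y.1) := by
      obtain ⟨n, hn⟩ := hnil1
      refine ⟨n, ?_⟩
      have hc : Commute p y.1 := hp y hyS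
      rw [hc.mul_pow, hn, mul_zero]
    exact (LinearMap.isNilpotent_trace_of_isNilpotent h2).eq_zero
  have h8 : p * g.1 = g.1 * p := hp g hg
  have h9 : y.1 = g.1 * x.1 * g.1 := rfl
  have h10 : p * (g.1 * x.1) = g.1 * (p * (g.1 * x.1)) := by
    rw [← mul_assoc, ← mul_assoc g.1, ← mul_assoc g.1, ← h8, mul_assoc p g.1 g.1, hgg1]
  rw [h10, LinearMap.trace_mul_comm]
  rw [h9] at h7
  rw [← h7]
  congr 1

end Pair

section Form

universe w

variable {K B D : Type*} {N : Type w} [Field K] [AddCommGroup D] [Module K D]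
  [AddCommGroup B] [Module K B] [FiniteDimensional K B] [AddCommGroup N] [Module K N]

/-- A relation which detects the kernel of a map bounds the rank of the map. -/
lemma rank_ge_of_map (φ : B →ₗ[K] D) (R : Submodule K (B × N))
    (h1 : ∀ v : B, ∃ n : N, (v, n) ∈ R) (h2 : ∀ v : B, (v, (0 : N)) ∈ R → φ v = 0) :
    ((finrank K (LinearMap.range φ) : ℕ) : Cardinal.{w}) ≤ Module.rank K N := by
  classical
  let b := Module.finBasis K (LinearMap.range φ)
  have hv : ∀ i, ∃ v : B, φ v = (b i : D) := fun i => (b i).2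
  choose v hv using hv
  choose f hf using fun i => h1 (v i)
  have hli : LinearIndependent K f := by
    rw [Fintype.linearIndependent_iff]
    intro c hc
    have h3 : (∑ i, c i • ((v i, f i) : B × N)) ∈ R :=
      Submodule.sum_mem _ fun i _ => Submodule.smul_mem _ _ (hf i)
    have h4 : (∑ i, c i • ((v i, f i) : B × N)) = (∑ i, c i • v i, (0 : N)) := by
      refine Prod.ext ?_ ?_
      · rw [Prod.fst_sum]; rfl
      · rw [Prod.snd_sum]; exact hc
    rw [h4] at h3
    have h5 : φ (∑ i, c i • v i) = 0 := h2 _ h3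
    have h7 : ∑ i, c i • b i = 0 := by
      apply Subtype.ext
      rw [Submodule.coe_sum, Submodule.coe_zero, ← h5, map_sum]
      refine Finset.sum_congr rfl fun i _ => ?_
      rw [map_smul, hv i]
      rfl
    exact Fintype.linearIndependent_iff.1 b.linearIndependent c h7
  have h9 := hli.cardinal_lift_le_rank
  rw [Cardinal.mk_fin] at h9
  simpa using h9

end Form

end Pool.Agent.Q56.ZO
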