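import Pool.Agent.Q56.ZO.Defs
import Pool.Agent.Q56.ZO.Lin
import Pool.Agent.W536.RBase
import Pool.Agent.Q55.Rate.Main
import Pool.Agent.H914R2.Cyc

/-!
# Theories on which algebraic correspondences act: the key estimate
-/

set_option autoImplicit false

open CategoryTheory AlgebraicGeometry Polynomial

universe u v w

namespace Pool.Agent.Q56.ZO

open Module
open Pool.Agent.H914 Pool.Agent.H914.VarClass Pool.Agent.H914.VarClass.Obj
  Pool.Agent.H914.WeilCohomology Pool.Agent.Y133.Half Pool.Agent.Q55.Rate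
  Pool.Agent.H281R3.HT


variable {k : Type u} [Field k] {𝒱 : VarClass k} {ops : CycleOps 𝒱}
  {W : WeilCohomology.{u, v} ops} {T : CycTheory.{u, v, w} W} {X Y Z P Q : 𝒱.Obj}

lemma actL_apply (Γ : (X.prod Y).Cycles) (m : T.M X) : T.actL Γ m = T.act Γ m := rfl

lemma corrPairs.of {p : ℕ} {Γ : (X.prod Y).Cycles} (h : (X.prod Y).IsCyc p Γ) :
    (W.corr (W.cl _ Γ), T.actL Γ) ∈ corrPairs T X Y :=
  Submodule.subset_span ⟨p, Γ, h, rfl⟩

lemma corrPairs.ind {q : (W.H X →ₗ[W.K] W.H Y) × (T.M X →ₗ[W.K] T.M Y) → Prop}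
    (h : ∀ (p : ℕ) (Γ : (X.prod Y).Cycles), (X.prod Y).IsCyc p Γ →
      q (W.corr (W.cl _ Γ), T.actL Γ)) (h0 : q 0) (hadd : ∀ x y, q x → q y → q (x + y))
    (hs : ∀ (c : W.K) x, q x → q (c • x)) {x : (W.H X →ₗ[W.K] W.H Y) × (T.M X →ₗ[W.K] T.M Y)}
    (hx : x ∈ corrPairs T X Y) : q x := by
  induction hx using Submodule.span_induction with
  | mem x hx =>
    obtain ⟨p, Γ, hΓ, rfl⟩ := hx
    exact h p Γ hΓ
  | zero => exact h0
  | add x y _ _ hx hy => exact hadd _ _ hx hy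
  | smul a x _ hx => exact hs _ _ hx

lemma corr_cl_comp_zero {p q : ℕ} {Γ : (X.prod Y).Cycles} {Δ : (Y.prod Z).Cycles}
    (hΓ : (X.prod Y).IsCyc p Γ) (hΔ : (Y.prod Z).IsCyc q Δ) (h : ¬ Y.dim ≤ p + q) :
    W.corr (W.cl _ Δ) ∘ₗ W.corr (W.cl _ Γ) = 0 := by
  have h1 := W.corr_comp (W.cl _ Γ) (W.cl_mem hΔ)
  rw [← h1]
  have h2 := W.push_mem (p13 X Y Z) (W.mul_mem (W.map_mem (p12 X Y Z) (W.cl_mem hΓ))
    (W.map_mem (p23 X Y Z) (W.cl_mem hΔ)))
  rw [grZ_of_neg (by simp only [dim_prod]; push_cast; omega)] at h2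
  rw [(Submodule.mem_bot _).1 h2, corr_zero]

lemma corrPairs.comp {x : (W.H X →ₗ[W.K] W.H Y) × (T.M X →ₗ[W.K] T.M Y)}
    {y : (W.H Y →ₗ[W.K] W.H Z) × (T.M Y →ₗ[W.K] T.M Z)} (hy : y ∈ corrPairs T Y Z)
    (hx : x ∈ corrPairs T X Y) : (y.1 ∘ₗ x.1, y.2 ∘ₗ x.2) ∈ corrPairs T X Z := by
  refine corrPairs.ind (q := fun x => (y.1 ∘ₗ x.1, y.2 ∘ₗ x.2) ∈ corrPairs T X Z)
    ?_ ?_ ?_ ?_ hx
  · intro p Γ hΓ
    refine corrPairs.ind (q := fun y => (y.1 ∘ₗ W.corr (W.cl _ Γ), y.2 ∘ₗ T.actL Γ) ∈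
      corrPairs T X Z) ?_ ?_ ?_ ?_ hy
    · intro q Δ hΔ
      by_cases h : Y.dim ≤ p + q
      · have e1 : T.actL Δ ∘ₗ T.actL Γ = T.actL (compCyc ops Γ Δ) := by
          apply LinearMap.ext
          intro m
          have := T.act_comp hΓ hΔ m
          rw [if_pos h] at this
          exact this
        have e2 : W.corr (W.cl _ Δ) ∘ₗ W.corr (W.cl _ Γ) = W.corr (W.cl _ (compCyc ops Γ Δ)) :=
          (corr_compCyc W hΔ).symm
        change (W.corr (W.cl _ Δ) ∘ₗ W.corr (W.cl _ Γ), T.actL Δ ∘ₗ T.actL Γ) ∈ _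
        rw [e1, e2]
        exact corrPairs.of (compCyc_mem (r := p + q - Y.dim) hΓ hΔ (by omega))
      · have e1 : T.actL Δ ∘ₗ T.actL Γ = 0 := by
          apply LinearMap.ext
          intro m
          have := T.act_comp hΓ hΔ m
          rw [if_neg h] at this
          exact this
        change (W.corr (W.cl _ Δ) ∘ₗ W.corr (W.cl _ Γ), T.actL Δ ∘ₗ T.actL Γ) ∈ _
        rw [e1, corr_cl_comp_zero hΓ hΔ h]
        exact Submodule.zero_mem _
    · simp only [Prod.fst_zero, Prod.snd_zero, LinearMap.zero_comp]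
      exact Submodule.zero_mem _
    · intro a b ha hb
      simp only [Prod.fst_add, Prod.snd_add, LinearMap.add_comp]
      exact Submodule.add_mem _ ha hb
    · intro c a ha
      simp only [Prod.smul_fst, Prod.smul_snd, LinearMap.smul_comp]
      exact Submodule.smul_mem _ c ha
  · simp only [Prod.fst_zero, Prod.snd_zero, LinearMap.comp_zero]
    exact Submodule.zero_mem _
  · intro a b ha hb
    simp only [Prod.fst_add, Prod.snd_add, LinearMap.comp_add]
    exact Submodule.add_mem _ ha hb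
  · intro c a ha
    simp only [Prod.smul_fst, Prod.smul_snd, LinearMap.comp_smul]
    exact Submodule.smul_mem _ c ha

lemma corrPairs.one (T : CycTheory.{u, v, w} W) (P : 𝒱.Obj) :
    ((LinearMap.id : W.H P →ₗ[W.K] W.H P), (LinearMap.id : T.M P →ₗ[W.K] T.M P)) ∈
      corrPairs T P P := by
  have h : (P.prod P).IsCyc P.dim (ops.push (diag P) P.V.fundCycle) :=
    ops.push_mem _ P.V.fundCycle_mem (by rw [dim_prod]; omega)
  have h1 := corrPairs.of (T := T) h
  have e1 : W.corr (W.cl _ (ops.push (diag P) P.V.fundCycle)) = LinearMap.id := by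
    rw [W.cl_push, W.cl_fund]
    exact Sys.corr_diag_one
  have e2 : T.actL (ops.push (diag P) P.V.fundCycle) = LinearMap.id := by
    apply LinearMap.ext
    intro m
    exact T.act_diag m
  rwa [e1, e2] at h1

lemma corrPairs.op {x : (W.H X →ₗ[W.K] W.H Y) × (T.M X →ₗ[W.K] T.M Y)}
    (hx : x ∈ corrPairs T X Y) : x.1 ∈ (algSys W).Op X Y := by
  refine corrPairs.ind (q := fun x => x.1 ∈ (algSys W).Op X Y) ?_ ?_ ?_ ?_ hx
  · intro p Γ hΓ
    refine Sys.Op.corr ?_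
    exact Submodule.subset_span (Set.mem_iUnion.2 ⟨p, Γ, hΓ, rfl⟩)
  · exact Submodule.zero_mem _
  · intro a b ha hb; exact Submodule.add_mem _ ha hb
  · intro c a ha; exact Submodule.smul_mem _ _ ha

lemma corrPairs.lift (T : CycTheory.{u, v, w} W) {u : W.H X →ₗ[W.K] W.H Y}
    (hu : u ∈ (algSys W).Op X Y) : ∃ f : T.M X →ₗ[W.K] T.M Y, (u, f) ∈ corrPairs T X Y := by
  obtain ⟨c, hc, rfl⟩ := Sys.mem_Op.1 hu
  have hc' : c ∈ algSpan W (X.prod Y) := hc
  refine Pool.Agent.W536.RR.algSpan_induction (p := fun c => ∃ f : T.M X →ₗ[W.K] T.M Y,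
    (W.corr c, f) ∈ corrPairs T X Y) ?_ ?_ ?_ ?_ hc'
  · exact ⟨0, by rw [corr_zero]; exact Submodule.zero_mem _⟩
  · rintro a b ⟨f, hf⟩ ⟨g, hg⟩
    exact ⟨f + g, by rw [corr_add]; exact Submodule.add_mem _ hf hg⟩
  · rintro t a ⟨f, hf⟩
    exact ⟨t • f, by rw [corr_smul]; exact Submodule.smul_mem _ t hf⟩
  · intro j z hz
    exact ⟨_, corrPairs.of hz⟩

/-- The algebra of pairs. -/
noncomputable def pairAlg (T : CycTheory.{u, v, w} W) (P : 𝒱.Obj) :
    Subalgebra W.K (Module.End W.K (W.H P) × Module.End W.K (T.M P)) where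
  carrier := {x | x ∈ corrPairs T P P}
  mul_mem' {a b} ha hb := corrPairs.comp (T := T) ha hb
  add_mem' {a b} ha hb := Submodule.add_mem (corrPairs T P P) ha hb
  algebraMap_mem' c := by
    have h := Submodule.smul_mem _ c (corrPairs.one T P)
    have e : c • ((LinearMap.id : W.H P →ₗ[W.K] W.H P), (LinearMap.id : T.M P →ₗ[W.K] T.M P)) =
        algebraMap W.K (Module.End W.K (W.H P) × Module.End W.K (T.M P)) c := by
      rw [Algebra.algebraMap_eq_smul_one]
      rfl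
    rw [e] at h
    exact h

/-- The values at `z` of the operators on the theory, together with the operators on the
cohomology. -/
noncomputable def valRel (T : CycTheory.{u, v, w} W) (P Z : 𝒱.Obj) (z : T.M P) :
    Submodule W.K ((algSys W).Op P Z × T.M Z) where
  carrier := {x | ∃ f : T.M P →ₗ[W.K] T.M Z,
    ((x.1 : W.H P →ₗ[W.K] W.H Z), f) ∈ corrPairs T P Z ∧ f z = x.2}
  zero_mem' := ⟨0, Submodule.zero_mem _, rfl⟩
  add_mem' := by
    rintro a b ⟨f, hf, ha⟩ ⟨g, hg, hb⟩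
    exact ⟨f + g, Submodule.add_mem (corrPairs T P Z) hf hg, by
      rw [LinearMap.add_apply, ha, hb]; rfl⟩
  smul_mem' := by
    rintro c a ⟨f, hf, ha⟩
    exact ⟨c • f, Submodule.smul_mem (corrPairs T P Z) c hf, by
      rw [LinearMap.smul_apply, ha]; rfl⟩

lemma valRel.total {z : T.M P} (v : (algSys W).Op P Z) :
    ∃ n : T.M Z, (v, n) ∈ valRel T P Z z := by
  obtain ⟨f, hf⟩ := corrPairs.lift T v.2
  exact ⟨f z, f, hf, rfl⟩

/-- **The key estimate.** A theory which does not vanish on `P` is large on all varieties. -/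
theorem key (hnil : ∀ x ∈ corrPairs T P P, x.1 = 0 → IsNilpotent (x.2 : Module.End W.K (T.M P)))
    [Nontrivial (T.M P)] :
    ∃ x : Module.End W.K (W.H P) × Module.End W.K (T.M P), x ∈ corrPairs T P P ∧ x * x = x ∧
      x.2 ≠ 0 ∧ ∀ Z : 𝒱.Obj,
        (((algSys W).r P x.1 Z : ℕ) : Cardinal.{w}) ≤ Module.rank W.K (T.M Z) := by
  set S := algSys W with hS
  obtain ⟨g, hg, hgg, z, hgz, hz0, key⟩ := exists_key (A := pairAlg T P) hnil
    (p := par (W.isInternal P)) (fun x hx => (Sys.Op.ev (corrPairs.op hx)).par_comm)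
  refine ⟨g, hg, hgg, fun h => hz0 ?_, fun Z => ?_⟩
  · rw [← hgz, h]; rfl
  have hr := S.rk_BO_r (P := P) (Z := Z) (g := g.1) (Sys.Op.ev (corrPairs.op hg))
  rw [← rk_flip, rk] at hr
  have h := rank_ge_of_map (S.BO P Z g.1 LinearMap.id).flip (valRel T P Z z)
    (fun v => valRel.total v) (fun v hv => ?_)
  · rw [hr] at h
    exact h
  · obtain ⟨f, hf, hfz⟩ := hv
    apply LinearMap.ext
    intro u
    obtain ⟨f', hf'⟩ := corrPairs.lift T u.2
    have h5 := corrPairs.comp hf' hf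
    have h6 := key _ h5 (by
      change f' (f z) = 0
      rw [hfz, map_zero])
    rw [LinearMap.flip_apply, Sys.BO_apply]
    exact h6

end Pool.Agent.Q56.ZO
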