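import Pool.Agent.Q56.ZO.Key

/-!
# Theories on which algebraic correspondences act: lower bounds
-/

set_option autoImplicit false

open CategoryTheory AlgebraicGeometry

universe u v w

namespace Pool.Agent.Q56.ZO

open Module
open Pool.Agent.H914 Pool.Agent.H914.VarClass Pool.Agent.H914.VarClass.Obj
  Pool.Agent.H914.WeilCohomology Pool.Agent.Y133.Half Pool.Agent.Q55.Rate
  Pool.Agent.H281R3.HT

variable {k : Type u} [Field k] {𝒱 : VarClass k} {ops : CycleOps 𝒱}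
  {W : WeilCohomology.{u, v} ops} {T : CycTheory.{u, v, w} W} {X Y Z P Q : 𝒱.Obj}

section Sys

variable (S : Sys W)

/-- The part cut out by an idempotent. -/
lemma r_lower' {P P₀ : 𝒱.Obj} {g : Module.End W.K (W.H P)} (hg : g ∈ S.Op P P)
    (hgg : g ∘ₗ g = g) (Y : 𝒱.Obj) :
    S.a ((P.prod P₀).prod (Y.prod Y)) +
        finrank W.K (LinearMap.range g) * finrank W.K (W.H P₀) * S.a (Y.prod Y) ≤
      S.r P g (P₀.prod (Y.prod Y)) +
        finrank W.K (W.H P) * finrank W.K (W.H P₀) * S.a (Y.prod Y) := by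
  set G : Module.End W.K (W.H (P.prod P₀)) := extOp W g 1 with hG
  have hGm : G ∈ S.Op (P.prod P₀) (P.prod P₀) := Sys.Op.ext hg Sys.Op.id
  have h11 : (1 : Module.End W.K (W.H P₀)) ∘ₗ 1 = 1 := rfl
  have hGG : G ∘ₗ G = G := by
    change G * G = G
    rw [hG, extOp_mul, mul_one]
    change extOp W (g ∘ₗ g) 1 = _
    rw [hgg]
  obtain ⟨hG', hdim⟩ := Sys.finrank_compl hGG
  have h1 := S.r_add_le (Z := Y.prod Y) G (1 - G)
  rw [add_sub_cancel, Sys.r_one] at h1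
  have h2 := S.r_le_rank (g := 1 - G) (Submodule.sub_mem _ Sys.Op.id hGm) hG' Y
  have h3 : S.r (P.prod P₀) G (Y.prod Y) = S.r P g (P₀.prod (Y.prod Y)) := S.r_assoc g
  have h4 : finrank W.K (LinearMap.range G) = finrank W.K (LinearMap.range g) *
      finrank W.K (W.H P₀) := by
    rw [hG, finrank_extOp hgg h11, Sys.rank_one]
  rw [Pool.Agent.Y133.Half.finrank_prod] at hdim
  rw [h3] at h1
  calc S.a ((P.prod P₀).prod (Y.prod Y)) +
        finrank W.K (LinearMap.range g) * finrank W.K (W.H P₀) * S.a (Y.prod Y)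
      ≤ (S.r P g (P₀.prod (Y.prod Y)) +
          finrank W.K (LinearMap.range (1 - G)) * S.a (Y.prod Y)) +
          finrank W.K (LinearMap.range G) * S.a (Y.prod Y) := by
        rw [h4]
        exact Nat.add_le_add_right (h1.trans (Nat.add_le_add_left h2 _)) _
    _ = S.r P g (P₀.prod (Y.prod Y)) +
          (finrank W.K (LinearMap.range (1 - G)) + finrank W.K (LinearMap.range G)) *
            S.a (Y.prod Y) := by ring
    _ = _ := by rw [hdim]

/-- **Lower bound for the rank cut out by an idempotent.** -/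
theorem lower_r
    (hB : ∀ c : ℝ, 0 ≤ c → c < (finrank W.K (W.H X) : ℝ) ^ 2 →
      ∃ l₀, ∀ l ≥ l₀, c * S.al X l ≤ S.al X (l + 1))
    (hX : 0 < finrank W.K (W.H X)) {m : ℕ} (d : ℕ) {ε : ℝ} (hε : 0 < ε) :
    ∃ n₀ : ℕ, ∀ n ≥ n₀, n % 2 = m % 2 → ∀ g ∈ S.Op (pw X m) (pw X m), g ∘ₗ g = g →
      d ≤ finrank W.K (LinearMap.range g) →
        ((d : ℝ) - ε) * S.a (pw X n) ≤ S.r (pw X m) g (pw X n) := by
  set b := finrank W.K (W.H X) with hb
  have hb1 : (1 : ℝ) ≤ b := by exact_mod_cast hX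
  set m₀ := m % 2 with hm₀
  obtain ⟨j, hj⟩ : ∃ j, m + m₀ + 2 = 2 * j := ⟨(m + m₀ + 2) / 2, by omega⟩
  have hB2 : (0 : ℝ) < (b : ℝ) ^ 2 := by positivity
  obtain ⟨c, hc0, hcB, hc⟩ := exists_close hB2 j hε
  obtain ⟨l₀, hl₀⟩ := hB c hc0 hcB
  refine ⟨2 * l₀ + m₀ + 2, fun n hn hpar g hg hgg hd => ?_⟩
  obtain ⟨l', hl'⟩ : ∃ l', n = m₀ + (l' + l' + 1) + 1 := ⟨(n - m₀ - 2) / 2, by omega⟩
  have hl'0 : l' ≥ l₀ := by omega
  set Y := pw X l' with hY
  set P₀ := pw X m₀ with hP₀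
  let φ : P₀.prod (Y.prod Y) ≅ pw X n :=
    prodCongr (Iso.refl _) (pwAdd X l' l') ≪≫ pwAdd X m₀ (l' + l' + 1) ≪≫
      eqToIso (congrArg (pw X) hl'.symm)
  rw [← S.r_iso g φ]
  have hdP : finrank W.K (W.H (pw X m)) = b ^ (m + 1) := finrank_pw _ _
  have hdP₀ : finrank W.K (W.H P₀) = b ^ (m₀ + 1) := finrank_pw _ _
  have hal : S.a (Y.prod Y) = S.al X l' := rfl
  have haP : S.a (((pw X m).prod P₀).prod (Y.prod Y)) = S.al X (l' + j) := by
    rw [S.a_iso (prodCongr (pwAdd X m m₀) (Iso.refl _))]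
    exact S.a_pw X (by omega)
  have hup : S.a (pw X n) ≤ b ^ (m₀ + 1) * S.al X l' := by
    rw [← S.a_iso φ, ← hdP₀]
    exact S.a_le _ _
  have hpow := ratio_pow hc0 hl₀ j l' hl'0
  have h4 := r_lower' S (P₀ := P₀) hg hgg Y
  rw [haP, hdP, hdP₀, hal] at h4
  have h5 : (S.al X (l' + j) : ℝ) + (finrank W.K (LinearMap.range g) : ℝ) *
      (b : ℝ) ^ (m₀ + 1) * S.al X l' ≤
      S.r (pw X m) g (P₀.prod (Y.prod Y)) + (b : ℝ) ^ (m + 1) * (b : ℝ) ^ (m₀ + 1) *
        S.al X l' := by exact_mod_cast h4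
  have h6 : (b : ℝ) ^ (m + 1) * (b : ℝ) ^ (m₀ + 1) = ((b : ℝ) ^ 2) ^ j := by
    rw [← pow_add, ← pow_mul]
    congr 1
    omega
  rw [h6] at h5
  have h7 : (0 : ℝ) ≤ S.al X l' := Nat.cast_nonneg _
  have hd' : (d : ℝ) ≤ finrank W.K (LinearMap.range g) := by exact_mod_cast hd
  have h8 : ((d : ℝ) * (b : ℝ) ^ (m₀ + 1) - ε) * S.al X l' ≤
      S.r (pw X m) g (P₀.prod (Y.prod Y)) := by
    have h9 : (d : ℝ) * (b : ℝ) ^ (m₀ + 1) * S.al X l' ≤
        (finrank W.K (LinearMap.range g) : ℝ) * (b : ℝ) ^ (m₀ + 1) * S.al X l' := by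
      gcongr
    nlinarith [mul_le_mul_of_nonneg_right hc.le h7]
  rcases le_or_gt ((d : ℝ) - ε) 0 with h | h
  · exact (mul_nonpos_of_nonpos_of_nonneg h (Nat.cast_nonneg _)).trans (Nat.cast_nonneg _)
  · refine le_trans ?_ h8
    have hup' : (S.a (pw X n) : ℝ) ≤ (b : ℝ) ^ (m₀ + 1) * S.al X l' := by exact_mod_cast hup
    refine (mul_le_mul_of_nonneg_left hup' h.le).trans ?_
    have h10 : (1 : ℝ) ≤ (b : ℝ) ^ (m₀ + 1) := one_le_pow₀ hb1
    have h11 : ε ≤ ε * (b : ℝ) ^ (m₀ + 1) := by nlinarith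
    nlinarith [mul_le_mul_of_nonneg_right h11 h7]

end Sys

/-- Nilpotence of the numerically trivial operators implies that the ratios tend to the square of
the Betti number. -/
lemma ratios_of_nilpotent (hW : NumTrivialNilpotent W X) (hpos : ∀ n, 0 < (algSys W).al X n) :
    ∀ c : ℝ, 0 ≤ c → c < (finrank W.K (W.H X) : ℝ) ^ 2 →
      ∃ l₀, ∀ l ≥ l₀, c * (algSys W).al X l ≤ (algSys W).al X (l + 1) := by
  set S := algSys W with hS
  set b := finrank W.K (W.H X) with hb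
  rcases ratio_dichotomy hpos (S.al_convex X) ((b : ℝ) ^ 2) with ⟨c, hc, hcB, h⟩ | hB
  · exfalso
    obtain ⟨l₀, hl₀⟩ := exp_lt hc hcB (b ^ 2) (C := (S.al X 0 : ℝ)) (ε := (b : ℝ) ^ 2 / 2)
      (by
        have : 0 < (b : ℝ) ^ 2 := lt_of_le_of_lt hc hcB
        positivity)
    have h1 := hl₀ l₀ le_rfl
    have h2 := geom_bound hc h l₀
    have h3 := growth_nil S l₀ (X := X) fun u hu => hW l₀ u (isNumTrivialOp_iff.2 hu)
    have h4 : (b : ℝ) ^ (2 * (l₀ + 1)) ≤ S.al X l₀ * ((l₀ : ℝ) + 2) ^ (b ^ 2) := by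
      exact_mod_cast h3
    have h5 : (0 : ℝ) < ((l₀ : ℝ) + 2) ^ (b ^ 2) := by positivity
    have h6 : 0 < (b : ℝ) ^ 2 := lt_of_le_of_lt hc hcB
    have h7 : 0 < ((b : ℝ) ^ 2) ^ l₀ := by positivity
    have h8 : (b : ℝ) ^ (2 * (l₀ + 1)) = (b : ℝ) ^ 2 * ((b : ℝ) ^ 2) ^ l₀ := by
      rw [← pow_mul, ← pow_add]
      congr 1
      ring
    have h9 : (S.al X l₀ : ℝ) * ((l₀ : ℝ) + 2) ^ (b ^ 2) ≤
        S.al X 0 * c ^ l₀ * ((l₀ : ℝ) + 2) ^ (b ^ 2) := by
      rw [mul_comm (S.al X 0 : ℝ)]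
      exact mul_le_mul_of_nonneg_right h2 h5.le
    rw [h8] at h4
    nlinarith [mul_pos h6 h7]
  · exact hB

section Step

variable (S : Sys W)

lemma mulLeft_mem {c : W.H P} (hc : c ∈ S.C P) : LinearMap.mulLeft W.K c ∈ S.Op P P := by
  have h : W.corr (W.push (diag P) c) = LinearMap.mulLeft W.K c := by
    apply LinearMap.ext
    intro a
    rw [W.corr_diag, LinearMap.mulLeft_apply]
  rw [← h]
  exact Sys.Op.corr (S.push _ hc)

/-- The pull-back from a power to the next one has a left inverse given by correspondences. -/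
lemma exists_section {l : W.H X} (hl : l ∈ S.C X) (hl1 : W.tr X l = 1) (m : ℕ) :
    ∃ u ∈ S.Op (pw X m) (pw X (m + 1)), ∃ v ∈ S.Op (pw X (m + 1)) (pw X m),
      v ∘ₗ u = LinearMap.id := by
  have hu : (W.map (fst (pw X m) X)).toLinearMap ∈ S.Op (pw X m) ((pw X m).prod X) :=
    Sys.Op.map _
  have hc : W.map (snd (pw X m) X) l ∈ S.C ((pw X m).prod X) := S.map _ hl
  have hw := Sys.Op.comp (mulLeft_mem S hc) hu
  obtain ⟨v, hv, hadj⟩ := Sys.Op.exists_adj hw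
  refine ⟨_, hu, v, hv, ?_⟩
  apply LinearMap.ext
  intro b
  apply W.tr_ext
  intro a
  have h1 := (hadj.symm (Sys.Op.ev hw) (Sys.Op.ev hv)) (W.map (fst (pw X m) X) b) a
  have h2 : W.tr ((pw X m).prod X) (W.map (fst (pw X m) X) b * (W.map (snd (pw X m) X) l *
      W.map (fst (pw X m) X) a)) = W.tr (pw X m) (b * a) := by
    rw [← mul_assoc, ← PH.even_comm (PH.map _ (S.even hl)), mul_assoc, ← map_mul, ← W.tr_push]
    have h3 : W.push (fst (pw X m) X) (W.map (snd (pw X m) X) l) = 1 := by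
      have h4 := push_fst (1 : W.H (pw X m)) l (S.even hl)
      rw [hl1, one_smul, xp, map_one, one_mul] at h4
      exact h4
    rw [h3, one_mul]
  exact h1.trans h2

/-- If a theory does not vanish on a power, it does not vanish on the next one. -/
lemma nontrivial_succ {l : W.H X} (hl : l ∈ (algSys W).C X) (hl1 : W.tr X l = 1) {m : ℕ}
    (hT : PairNilpotent T X) [h : Nontrivial (T.M (pw X m))] :
    Nontrivial (T.M (pw X (m + 1))) := by
  obtain ⟨u, hu, v, hv, huv⟩ := exists_section (algSys W) hl hl1 m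
  obtain ⟨f, hf⟩ := corrPairs.lift T hu
  obtain ⟨g, hg⟩ := corrPairs.lift T hv
  have h1 := corrPairs.comp hg hf
  have h2 := Submodule.sub_mem _ (corrPairs.one T (pw X m)) h1
  by_contra h0
  rw [not_nontrivial_iff_subsingleton] at h0
  have h3 : g ∘ₗ f = 0 := by
    apply LinearMap.ext
    intro x
    rw [LinearMap.comp_apply, Subsingleton.elim (f x) 0, map_zero, LinearMap.zero_apply]
  have h4 := hT m _ h2 (by
    change LinearMap.id - v ∘ₗ u = 0
    rw [huv, sub_self])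
  obtain ⟨N, hN⟩ := h4
  have h5 : ((LinearMap.id : T.M (pw X m) →ₗ[W.K] T.M (pw X m)) - g ∘ₗ f : Module.End W.K
      (T.M (pw X m))) ^ N = 0 := hN
  rw [h3, sub_zero] at h5
  have h6 : (1 : Module.End W.K (T.M (pw X m))) ^ N = 0 := h5
  rw [one_pow] at h6
  exact one_ne_zero h6

end Step

end Pool.Agent.Q56.ZO
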